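import Pool.Agent.GP.PartA
import Pool.Agent.GP.PartB
import Pool.Agent.GP.Product

set_option autoImplicit false
set_option warn.classDefReducibility false

open Set TopologicalSpace

namespace Pool.Agent.Results.MP_63d1a1_an.UniformAlgebraForm

/-- The polynomial hull of `X`: the points `z` with `|p(z)| ≤ sup_X |p|` for all polynomials `p`. -/
def hull {N : ℕ} (X : Compacts (Fin N → ℂ)) : Set (Fin N → ℂ) :=
  {z | ∀ (p : MvPolynomial (Fin N) ℂ) (M : ℝ),
    (∀ x ∈ X, ‖MvPolynomial.eval x p‖ ≤ M) → ‖MvPolynomial.eval z p‖ ≤ M}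

/-- The points of the hull outside `X`. -/
def outer {N : ℕ} (X : Compacts (Fin N → ℂ)) : Set (Fin N → ℂ) := {z | z ∈ hull X ∧ z ∉ X}

/-- The Banach algebra `C(X)` of complex continuous functions on `X`, with the sup norm. -/
def CX {N : ℕ} (X : Compacts (Fin N → ℂ)) : Type := C(X, ℂ)

/-- Its usual structure of a normed ring (pointwise operations, sup norm). -/
noncomputable def ringCX {N : ℕ} (X : Compacts (Fin N → ℂ)) : NormedCommRing C(X, ℂ) :=
  inferInstance

/-- Its usual structure of a normed algebra. -/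
noncomputable def algCX {N : ℕ} (X : Compacts (Fin N → ℂ)) : NormedAlgebra ℂ C(X, ℂ) :=
  inferInstance

noncomputable instance instCX {N : ℕ} (X : Compacts (Fin N → ℂ)) : NormedCommRing (CX X) :=
  ringCX X

noncomputable instance instCX' {N : ℕ} (X : Compacts (Fin N → ℂ)) : NormedAlgebra ℂ (CX X) :=
  algCX X

/-- The restriction of a polynomial to `X`. -/
noncomputable def restrFun {N : ℕ} (X : Compacts (Fin N → ℂ)) (p : MvPolynomial (Fin N) ℂ) :
    C(X, ℂ) :=
  ⟨fun x => MvPolynomial.eval (x : Fin N → ℂ) p,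
    (MvPolynomial.continuous_eval p).comp continuous_subtype_val⟩

/-- The restriction of polynomials to the compact set `X`, with values in `C(X)`. -/
noncomputable def restr {N : ℕ} (X : Compacts (Fin N → ℂ)) :
    MvPolynomial (Fin N) ℂ →ₐ[ℂ] CX X where
  toFun p := restrFun X p
  map_one' := ContinuousMap.ext fun x => map_one (MvPolynomial.eval (x : Fin N → ℂ))
  map_mul' p q := ContinuousMap.ext fun x => map_mul (MvPolynomial.eval (x : Fin N → ℂ)) p q
  map_zero' := ContinuousMap.ext fun x => map_zero (MvPolynomial.eval (x : Fin N → ℂ))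
  map_add' p q := ContinuousMap.ext fun x => map_add (MvPolynomial.eval (x : Fin N → ℂ)) p q
  commutes' c := ContinuousMap.ext fun x => MvPolynomial.eval_C (f := (x : Fin N → ℂ)) c

/-- The algebra `P(X)`: the closure of the polynomials in `C(X)` for the supremum norm. -/
noncomputable def closurePX {N : ℕ} (X : Compacts (Fin N → ℂ)) : Subalgebra ℂ (CX X) :=
  (restr X).range.topologicalClosure

/-- The Banach algebra `P(X)`, with the sup norm over `X`. -/
def PX {N : ℕ} (X : Compacts (Fin N → ℂ)) : Type := closurePX X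

/-- Its structure of a normed ring, as a subalgebra of `C(X)`. -/
noncomputable def ringPX {N : ℕ} (X : Compacts (Fin N → ℂ)) : NormedCommRing (closurePX X) :=
  inferInstance

/-- Its structure of a normed algebra, as a subalgebra of `C(X)`. -/
noncomputable def algPX {N : ℕ} (X : Compacts (Fin N → ℂ)) : NormedAlgebra ℂ (closurePX X) :=
  inferInstance

noncomputable instance instPX {N : ℕ} (X : Compacts (Fin N → ℂ)) : NormedCommRing (PX X) :=
  ringPX X

noncomputable instance instPX' {N : ℕ} (X : Compacts (Fin N → ℂ)) : NormedAlgebra ℂ (PX X) :=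
  algPX X

/-- A polynomial as an element of `P(X)`. -/
noncomputable def poly {N : ℕ} (X : Compacts (Fin N → ℂ)) (p : MvPolynomial (Fin N) ℂ) : PX X :=
  ⟨restr X p, Subalgebra.le_topologicalClosure _ ⟨p, rfl⟩⟩

/-- The dual space of `P(X)`: the bounded linear functionals, with the dual norm. -/
def Functional {N : ℕ} (X : Compacts (Fin N → ℂ)) : Type := PX X →L[ℂ] ℂ

/-- Its usual structure of a normed group (the norm is the operator norm). -/
noncomputable def groupDual {N : ℕ} (X : Compacts (Fin N → ℂ)) :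
    NormedAddCommGroup (PX X →L[ℂ] ℂ) :=
  inferInstance

noncomputable instance instFunctional {N : ℕ} (X : Compacts (Fin N → ℂ)) :
    NormedAddCommGroup (Functional X) :=
  groupDual X

/-- The value of a functional. -/
noncomputable def val {N : ℕ} {X : Compacts (Fin N → ℂ)} (φ : Functional X) (f : PX X) : ℂ :=
  DFunLike.coe (F := PX X →L[ℂ] ℂ) φ f

/-- The continuous linear functional `φ` on `P(X)` is the extension `φ_z` of `p ↦ p(z)`. -/
def IsEval {N : ℕ} (X : Compacts (Fin N → ℂ)) (z : Fin N → ℂ) (φ : Functional X) : Prop :=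
  ∀ p : MvPolynomial (Fin N) ℂ, val φ (poly X p) = MvPolynomial.eval z p

/-- The bounded linear functional `D` on `P(X)` is a point derivation at the character `φ`. -/
def IsPointDer {N : ℕ} {X : Compacts (Fin N → ℂ)} (φ D : Functional X) : Prop :=
  ∀ f g : PX X, val D (f * g) = val φ f * val D g + val φ g * val D f

/-- The set `E` contains no analytic disc: a map holomorphic on the open unit disc with values in
`E` is constant. -/
def NoAnalyticDisc {N : ℕ} (E : Set (Fin N → ℂ)) : Prop :=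
  ∀ f : ℂ → (Fin N → ℂ), DifferentiableOn ℂ f (Metric.ball (0 : ℂ) 1) →
    MapsTo f (Metric.ball (0 : ℂ) 1) E → ∃ c, ∀ ζ ∈ Metric.ball (0 : ℂ) 1, f ζ = c

section

variable {N : ℕ} {X : Compacts (Fin N → ℂ)}

lemma norm_poly (p : MvPolynomial (Fin N) ℂ) : ‖poly X p‖ = ‖restrFun X p‖ := rfl

lemma eval_le_norm (p : MvPolynomial (Fin N) ℂ) {x : Fin N → ℂ} (hx : x ∈ X) :
    ‖MvPolynomial.eval x p‖ ≤ ‖poly X p‖ :=
  (restrFun X p).norm_coe_le_norm ⟨x, hx⟩

lemma norm_poly_le (p : MvPolynomial (Fin N) ℂ) {M : ℝ} (hM : 0 ≤ M)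
    (h : ∀ x ∈ X, ‖MvPolynomial.eval x p‖ ≤ M) : ‖poly X p‖ ≤ M := by
  rw [norm_poly, ContinuousMap.norm_le _ hM]
  intro x
  exact h x.1 x.2

lemma poly_mul (p q : MvPolynomial (Fin N) ℂ) : poly X (p * q) = poly X p * poly X q := by
  apply Subtype.ext
  exact map_mul (restr X) p q

lemma poly_add (p q : MvPolynomial (Fin N) ℂ) : poly X (p + q) = poly X p + poly X q := by
  apply Subtype.ext
  exact map_add (restr X) p q

lemma poly_smul (c : ℂ) (p : MvPolynomial (Fin N) ℂ) : poly X (c • p) = c • poly X p := by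
  apply Subtype.ext
  exact map_smul (restr X) c p

lemma denseRange_poly : DenseRange (poly X) := by
  intro f
  rw [mem_closure_iff_nhds_basis Metric.nhds_basis_ball]
  intro ε hε
  have hf : f.1 ∈ closure (Set.range (restr X)) := f.2
  rw [mem_closure_iff_nhds_basis Metric.nhds_basis_ball] at hf
  obtain ⟨g, ⟨p, rfl⟩, hg⟩ := hf ε hε
  exact ⟨poly X p, ⟨p, rfl⟩, hg⟩

/-- Two continuous functionals that agree on the polynomials are equal. -/
lemma ext_poly {φ ψ : PX X →L[ℂ] ℂ} (h : ∀ p, φ (poly X p) = ψ (poly X p)) : φ = ψ := by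
  apply ContinuousLinearMap.coeFn_injective
  exact denseRange_poly.equalizer φ.continuous ψ.continuous (funext h)

/-- Norm bounds can be checked on polynomials. -/
lemma bound_of_poly {φ : PX X →L[ℂ] ℂ} {C : ℝ} (h : ∀ p, ‖φ (poly X p)‖ ≤ C * ‖poly X p‖)
    (f : PX X) : ‖φ f‖ ≤ C * ‖f‖ := by
  refine denseRange_poly.induction_on (p := fun f : PX X => ‖φ f‖ ≤ C * ‖f‖) f ?_ h
  exact isClosed_le (by fun_prop) (by fun_prop)

lemma exists_eval {z : Fin N → ℂ} (hz : z ∈ hull X) :
    ∃! φ : Functional X, IsEval X z φ := by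
  obtain ⟨L, hL, -⟩ := Pool.Agent.GP.ext_functional (restr X).toLinearMap
    (MvPolynomial.aeval z : MvPolynomial (Fin N) ℂ →ₐ[ℂ] ℂ).toLinearMap (C := 1) zero_le_one (by
      intro p
      rw [one_mul]
      have : (MvPolynomial.aeval z : MvPolynomial (Fin N) ℂ →ₐ[ℂ] ℂ).toLinearMap p
          = MvPolynomial.eval z p := by
        simp [MvPolynomial.aeval_eq_eval]
      rw [this]
      exact hz p _ fun x hx => eval_le_norm p hx)
  let L' : CX X →L[ℂ] ℂ := L
  refine ⟨(L'.comp (closurePX X).toSubmodule.subtypeL : closurePX X →L[ℂ] ℂ), ?_, ?_⟩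
  · intro p
    have h1 := hL p
    have h2 : (MvPolynomial.aeval z : MvPolynomial (Fin N) ℂ →ₐ[ℂ] ℂ).toLinearMap p
          = MvPolynomial.eval z p := by
      simp [MvPolynomial.aeval_eq_eval]
    rw [h2] at h1
    exact h1
  · intro ψ hψ
    apply ext_poly
    intro p
    change val ψ (poly X p) = L (restr X p)
    rw [hψ p]
    have h1 := hL p
    have h2 : (MvPolynomial.aeval z : MvPolynomial (Fin N) ℂ →ₐ[ℂ] ℂ).toLinearMap p
          = MvPolynomial.eval z p := by
      simp [MvPolynomial.aeval_eq_eval]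
    rw [h2] at h1
    exact h1.symm

lemma inHull_of_mem (hne : (X : Set (Fin N → ℂ)).Nonempty) {z : Fin N → ℂ}
    (hz : z ∈ hull X) : Pool.Agent.GP.InHull (X : Set (Fin N → ℂ)) z := by
  intro p
  obtain ⟨x, hx, hmax⟩ := X.isCompact.exists_isMaxOn hne
    ((MvPolynomial.continuous_eval p).norm.continuousOn)
  exact ⟨x, hx, hz p _ fun y hy => hmax hy⟩

lemma mem_of_inHull {z : Fin N → ℂ} (hz : Pool.Agent.GP.InHull (X : Set (Fin N → ℂ)) z) :
    z ∈ hull X := by
  intro p M hM
  obtain ⟨x, hx, h⟩ := hz p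
  exact h.trans (hM x hx)

lemma noDer_form (hne : (X : Set (Fin N → ℂ)).Nonempty)
    (hX : Pool.Agent.GP.NoDer (X : Set (Fin N → ℂ))) {z : Fin N → ℂ}
    (hz : z ∈ hull X) {φ : PX X →L[ℂ] ℂ} (hφ : IsEval X z φ)
    {D : PX X →L[ℂ] ℂ} (hD : IsPointDer φ D) : D = 0 := by
  let D' : MvPolynomial (Fin N) ℂ →ₗ[ℂ] ℂ :=
    { toFun := fun p => D (poly X p)
      map_add' := by intro p q; rw [poly_add, map_add]
      map_smul' := by intro c p; rw [poly_smul, map_smul]; rfl }
  have h0 : D' = 0 := by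
    apply hX z (inHull_of_mem hne hz) D'
    · intro p q
      show val D (poly X (p * q)) = _ * val D (poly X q) + _ * val D (poly X p)
      rw [poly_mul, hD, hφ, hφ]
    · refine ⟨‖D‖, fun p M hM => ?_⟩
      have hM0 : 0 ≤ M := by
        obtain ⟨x, hx⟩ := hne
        exact (norm_nonneg _).trans (hM x hx)
      refine (D.le_opNorm (poly X p)).trans ?_
      gcongr
      exact norm_poly_le p hM0 hM
  apply ext_poly
  intro p
  have := LinearMap.congr_fun h0 p
  exact this

lemma gleason_form {z w : Fin N → ℂ} {c : ℝ} (hc0 : 0 ≤ c) (hc : c < 2)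
    (h : ∀ p : MvPolynomial (Fin N) ℂ, (∀ x ∈ (X : Set (Fin N → ℂ)), ‖MvPolynomial.eval x p‖ ≤ 1) →
      ‖MvPolynomial.eval z p - MvPolynomial.eval w p‖ ≤ c)
    {φ ψ : PX X →L[ℂ] ℂ} (hφ : IsEval X z φ) (hψ : IsEval X w ψ) : ‖φ - ψ‖ < 2 := by
  refine lt_of_le_of_lt (ContinuousLinearMap.opNorm_le_bound _ hc0 (bound_of_poly ?_)) hc
  intro p
  change ‖val φ (poly X p) - val ψ (poly X p)‖ ≤ _
  rw [hφ, hψ]
  by_cases h0 : ‖poly X p‖ = 0
  · have h1 : val φ (poly X p) = 0 ∧ val ψ (poly X p) = 0 := by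
      rw [norm_eq_zero] at h0
      rw [h0]
      exact ⟨map_zero φ, map_zero ψ⟩
    rw [hφ, hψ] at h1
    rw [h1.1, h1.2, sub_zero, norm_zero]
    positivity
  · have hpos : 0 < ‖poly X p‖ := lt_of_le_of_ne (norm_nonneg _) (Ne.symm h0)
    have h1 := h ((((‖poly X p‖ : ℝ) : ℂ)⁻¹) • p) (by
      intro x hx
      rw [MvPolynomial.smul_eval, norm_mul, norm_inv, Complex.norm_real, norm_norm,
        inv_mul_le_iff₀ hpos, mul_one]
      exact eval_le_norm p hx)
    rw [MvPolynomial.smul_eval, MvPolynomial.smul_eval, ← mul_sub, norm_mul, norm_inv,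
      Complex.norm_real, norm_norm, inv_mul_le_iff₀ hpos] at h1
    rw [mul_comm]
    exact h1

end

/-- There is a compact set `X` in `ℂ⁶` whose hull is bigger than `X` and contains no analytic disc
(in particular none outside `X`), such that `P(X)` has no nonzero bounded point derivation at any
point of the hull, and such that two different points of the hull outside `X` lie in the same
Gleason part of `P(X)`. -/
theorem result : ∃ X : Compacts (Fin 6 → ℂ),
    (∀ z ∈ hull X, ∃! φ : Functional X, IsEval X z φ) ∧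
    (outer X).Nonempty ∧
    NoAnalyticDisc (hull X) ∧
    (∀ z ∈ hull X, ∀ φ D : Functional X, IsEval X z φ →
      IsPointDer φ D → D = 0) ∧
    ∃ z ∈ outer X, ∃ w ∈ outer X, z ≠ w ∧
      ∃ φ ψ : Functional X, IsEval X z φ ∧ IsEval X w ψ ∧ ‖φ - ψ‖ < 2 := by
  obtain ⟨X, hXc, ⟨ξ, hξX, hξ⟩, hXd⟩ := Pool.Agent.GP.partA
  obtain ⟨K, hKc, hKd, κ₁, hκ₁, κ₂, hκ₂, hne, c, hc, hcK⟩ := Pool.Agent.GP.partB
  have hnot : ∀ κ : Fin 2 → ℂ, Fin.append ξ κ ∉ Pool.Agent.GP.prodSet X K := by
    intro κ h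
    apply hξX
    have h2 := Pool.Agent.GP.mem_left h
    have h3 : (fun i => Fin.append ξ κ (Fin.castAdd 2 i)) = ξ := by
      ext i
      rw [Fin.append_left]
    rw [h3] at h2
    exact h2
  have hder := Pool.Agent.GP.noDer_prod hXd hKd
  let Y : Compacts (Fin (4 + 2) → ℂ) :=
    ⟨Pool.Agent.GP.prodSet X K, Pool.Agent.GP.prodSet_isCompact hXc hKc⟩
  have hYne : (Y : Set (Fin (4 + 2) → ℂ)).Nonempty := by
    obtain ⟨x, hx, -⟩ := hξ 1
    exact ⟨_, Pool.Agent.GP.append_mem hx hκ₁⟩
  have hz : Fin.append ξ κ₁ ∈ hull Y :=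
    mem_of_inHull (Pool.Agent.GP.inHull_append hξ hκ₁)
  have hw : Fin.append ξ κ₂ ∈ hull Y :=
    mem_of_inHull (Pool.Agent.GP.inHull_append hξ hκ₂)
  have hzw : Fin.append ξ κ₁ ≠ Fin.append ξ κ₂ := by
    intro h
    apply hne
    ext j
    have h2 := congrFun h (Fin.natAdd 4 j)
    rw [Fin.append_right, Fin.append_right] at h2
    exact h2.symm
  refine ⟨Y, fun z hz => exists_eval hz, ⟨Fin.append ξ κ₁, hz, hnot κ₁⟩, ?_, ?_,
    Fin.append ξ κ₁, ⟨hz, hnot κ₁⟩, Fin.append ξ κ₂, ⟨hw, hnot κ₂⟩, hzw, ?_⟩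
  · intro f hf hm
    exact Pool.Agent.GP.noDisc hder f hf fun ζ hζ => inHull_of_mem hYne (hm hζ)
  · intro z hz φ D hφ hD
    exact noDer_form hYne hder hz hφ hD
  · obtain ⟨φ, hφ, -⟩ := exists_eval hz
    obtain ⟨ψ, hψ, -⟩ := exists_eval hw
    have hgl := Pool.Agent.GP.gleason_prod hξ hcK
    have hc0 : 0 ≤ c := (norm_nonneg _).trans (hgl 0 (by intro x _; simp))
    exact ⟨φ, ψ, hφ, hψ, gleason_form hc0 hc hgl hφ hψ⟩

end Pool.Agent.Results.MP_63d1a1_an.UniformAlgebraForm
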